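import Pool.Agent.H86.GF.Defs
import Pool.Agent.H86.GF.Suff
import Pool.Agent.H86.GF.Nec2

/-!
# MP_f868b6_lc: the context-free-s-complete grammar forms

A context-free grammar form `G` is context-free-s-complete if and only if there is a terminal `a`
such that
* every word `a ^ n`, `n ≥ 1`, is generated by `G`, and
* all but finitely many of these words are generated by derivations over the single terminal `a`
  in which an `a`-expansive nonterminal occurs, that is, a nonterminal `E` such that
  `E ⇒* a ^ k E a ^ l E a ^ m` for some `k, l, m` and `E ⇒* a ^ j` for some `j ≥ 1`.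

The definitions are in `Pool.Agent.H86.GF.Defs`.
-/

set_option autoImplicit false

namespace Pool.Agent.Results.MP_f868b6_lc.StrictCompleteness

open Pool.Agent.H86.GF

/-- **Characterisation of the context-free-s-complete grammar forms.** -/
theorem result {T : Type} [Finite T] (G : ContextFreeGrammar T) [Finite G.NT] :
    CFsComplete G ↔ ∃ a : T,
      (∀ n, 1 ≤ n → G.Derives [Symbol.nonterminal G.initial]
        (List.replicate n (Symbol.terminal a))) ∧
      ∃ N, ∀ n, N ≤ n → ExpGen G a n := by
  constructor
  · exact necessity G
  · rintro ⟨a, h1, h2⟩ T' _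
    refine ⟨?_, ?_⟩
    · rintro L ⟨H, _, rfl⟩
      exact ⟨H.language, ⟨H, rfl⟩, fun w _ => Iff.rfl⟩
    · rintro L ⟨g, rfl⟩
      obtain ⟨H, hH, he⟩ := sufficiency G a h1 h2 g
      exact ⟨H.language, ⟨H, hH, rfl⟩, he⟩

end Pool.Agent.Results.MP_f868b6_lc.StrictCompleteness
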